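import Pool.Agent.Q54.KZ.Mmt

/-!
# The real periods are the differences of two volumes of regions given by bilinear inequalities

A real number is a period, in the form of the frozen statement, if and only if it is the difference of the volumes of two
regions, each in some `ℝ ^ n × ℝ ^ m` and given by finitely many inequalities which are bilinear in `(1, x)` and
`(1, y)`, with integer coefficients; moreover all fibres over the points `x` have volume `0` or `1`.
-/

set_option autoImplicit false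

namespace Pool.Agent.Results.MP_725b61_nt.DifferenceOfTwoVolumes

/-- The region of `ℝ ^ n × ℝ ^ m` given by the inequalities `∑_{a, b} T_{c a b} x_a y_b > 0`, where `x_0 = y_0 = 1`. -/
def Region {n m r : ℕ} (T : Fin r → Fin (n + 1) → Fin (m + 1) → ℤ) : Set ((Fin n → ℝ) × (Fin m → ℝ)) :=
  {z | ∀ c, 0 < ∑ a, ∑ b, (T c a b : ℝ) * (Fin.cons 1 z.1 : Fin (n + 1) → ℝ) a * (Fin.cons 1 z.2 : Fin (m + 1) → ℝ) b}

theorem result (x : ℝ) :
    (∃ (k : ℕ) (n m : Fin k → ℕ)
        (p : ∀ j : Fin k, Fin (m j) → MvPolynomial (Fin (n j)) ℚ)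
        (P Q : ∀ j : Fin k, MvPolynomial (Fin (n j)) ℚ),
        (∀ j : Fin k,
          MeasureTheory.IntegrableOn
            (fun y : Fin (n j) → ℝ => (MvPolynomial.aeval y (P j) / MvPolynomial.aeval y (Q j) : ℝ))
            {y : Fin (n j) → ℝ | ∀ i, 0 ≤ (MvPolynomial.aeval y (p j i) : ℝ)}) ∧
        x = ∑ j : Fin k,
          ∫ y in {y : Fin (n j) → ℝ | ∀ i, 0 ≤ (MvPolynomial.aeval y (p j i) : ℝ)},
            (MvPolynomial.aeval y (P j) / MvPolynomial.aeval y (Q j) : ℝ)) ↔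
      ∃ (n m r : ℕ) (T : Fin r → Fin (n + 1) → Fin (m + 1) → ℤ)
        (n' m' r' : ℕ) (T' : Fin r' → Fin (n' + 1) → Fin (m' + 1) → ℤ),
        (∀ u, MeasureTheory.volume {y | (u, y) ∈ Region T} ∈ ({0, 1} : Set ENNReal)) ∧
        (∀ u, MeasureTheory.volume {y | (u, y) ∈ Region T'} ∈ ({0, 1} : Set ENNReal)) ∧
        MeasureTheory.volume (Region T) ≠ ⊤ ∧ MeasureTheory.volume (Region T') ≠ ⊤ ∧
        x = (MeasureTheory.volume (Region T)).toReal - (MeasureTheory.volume (Region T')).toReal := by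
  constructor
  · rintro ⟨k, n, m, p, P, Q, h1, rfl⟩
    have h2 : (∑ j : Fin k, ∫ y in {y : Fin (n j) → ℝ | ∀ i, 0 ≤ (MvPolynomial.aeval y (p j i) : ℝ)},
        (MvPolynomial.aeval y (P j) / MvPolynomial.aeval y (Q j) : ℝ)) ∈ AddSubgroup.closure Q54.KZ.vols :=
      AddSubgroup.sum_mem _ fun j _ => Q54.KZ.IsPer.mem ⟨n j, m j, p j, P j, Q j, h1 j, rfl⟩
    obtain ⟨a, h3, b, h4, h7⟩ := Q54.KZ.exists_sub (Q54.KZ.vols_le h2)
    obtain ⟨n1, m1, r1, T1, h8, h9, h10⟩ := Q54.KZ.bas_eq h3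
    obtain ⟨n2, m2, r2, T2, h11, h12, h13⟩ := Q54.KZ.bas_eq h4
    exact ⟨n1, m1, r1, T1, n2, m2, r2, T2, h8, h11, h9, h12, by rw [h7, h10, h13]; rfl⟩
  · rintro ⟨n, m, r, T, n', m', r', T', -, -, h1, h2, rfl⟩
    have h3 : (MeasureTheory.volume (Region T)).toReal ∈ Q54.KZ.vols := ⟨n, m, r, T, h1, rfl⟩
    have h4 : (MeasureTheory.volume (Region T')).toReal ∈ Q54.KZ.vols := ⟨n', m', r', T', h2, rfl⟩
    have h5 := AddSubgroup.sub_mem (AddSubgroup.closure Q54.KZ.vols) (AddSubgroup.subset_closure h3)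
      (AddSubgroup.subset_closure h4)
    obtain ⟨l, h6, h7⟩ := (Q54.KZ.mem_iff _).1 h5
    rw [← h7]
    choose n' k' p' P' Q' h8 h9 using fun j : Fin l.length => h6 (l.get j) (List.get_mem l j)
    refine ⟨l.length, n', k', p', P', Q', h8, ?_⟩
    rw [← Finset.sum_congr rfl fun j _ => h9 j]
    exact (Fin.sum_univ_getElem l).symm

end Pool.Agent.Results.MP_725b61_nt.DifferenceOfTwoVolumes
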