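import Pool.Agent.Q189.EP.Num

/-!
# `1 / π` is not close to a number integral over the ring of periods of punctured lines

Let `a_1, …, a_r` be distinct nonzero integers. The periods of the fundamental groupoid of
`ℙ¹ ∖ {0, 1 / a_1, …, 1 / a_r, ∞}` between `0` and `y = 1 / x` are, up to `2πi`, the polynomials in `log x` and in the
hyperlogarithms `L_w(y)`, the iterated integrals from `0` to `y` of words in the forms `dy / y` and `dy / (1 - a_i y)`,
the last of which is not `dy / y`. All polynomials in these periods at points `1 / x_1, …, 1 / x_k` are linear combinations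
of the products `π_b = ∏_j (log x_j) ^ (e_j) L_(w_j)(1 / x_j)`.

The theorem: let `θ` be transcendental and algebraic over `ℤ[π]`, for instance `θ = π`. For almost all tuples of algebraic
integers `x_j` of degree at most `m` and conjugates at most `T`, `1 / θ` is not near to a root of a monic polynomial of
degree at most `d` with coefficients in the ring generated by `θ`, `x` and the `π_b`: the value of the monic polynomial at
`1 / θ` is at least `H ^ (-B)`, where `H` bounds the integral coefficients of its coefficients.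

Proof: after multiplication by `θ ^ n` the value is a linear form in the `π_b` with coefficients in `ℤ[θ, x]`, and the
coefficient of the product `1`, a polynomial in `θ`, has the constant term `1`.
-/

set_option autoImplicit false

open PowerSeries

namespace Pool.Agent.Results.MP_725b61_nt.InverseOfPiNearIntegral

/-- The coefficients of the hyperlogarithm of a word, that is of the iterated integral from `0` of the forms `dy / y` (for
the letter `none`) and `dy / (1 - a_i y)` (for the letter `some i`); the first letter is the outermost integration. -/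
noncomputable def co {r : ℕ} (a : Fin r → ℤ) : List (Option (Fin r)) → ℕ → ℚ
  | [], m => if m = 0 then 1 else 0
  | none :: w, m => co a w m / m
  | some i :: w, m => (∑ l ∈ Finset.range m, (a i : ℚ) ^ (m - 1 - l) * co a w l) / m

/-- the hyperlogarithm of a word -/
noncomputable def L {r : ℕ} (a : Fin r → ℤ) (w : List (Option (Fin r))) (y : ℂ) : ℂ := ∑' m : ℕ, (co a w m : ℂ) * y ^ m

/-- the words of length at most `W` whose last letter is not `none` -/
abbrev Word (r W : ℕ) : Type := {w : List (Option (Fin r)) // w.length ≤ W ∧ w.getLast? ≠ some none}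

/-- there are finitely many words -/
noncomputable instance (r W : ℕ) : Fintype (Word r W) := inferInstanceAs (Fintype (Pool.Agent.Y119.ML.WI r W))

/-- the indices: for every point an exponent of the logarithm and a word -/
abbrev Idx {k : ℕ} (r : Fin k → ℕ) (W : ℕ) : Type := ∀ j, Fin (W + 1) × Word (r j) W

/-- the product `∏_j ℓ_j ^ (e_j) L_(w_j)(1 / x_j)` -/
noncomputable def prod {k : ℕ} {r : Fin k → ℕ} (a : ∀ j, Fin (r j) → ℤ) {W : ℕ} (x ℓ : Fin k → ℂ) (b : Idx r W) : ℂ :=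
  ∏ j, (ℓ j ^ ((b j).1 : ℕ) * L (a j) (b j).2 (1 / x j))

/-- the algebraic integers of degree at most `m` all of whose conjugates have absolute value at most `T` -/
def Ints (m T : ℕ) : Set ℂ :=
  {α | IsIntegral ℤ α ∧ (minpoly ℚ α).natDegree ≤ m ∧ ∀ z : ℂ, Polynomial.aeval z (minpoly ℚ α) = 0 → ‖z‖ ≤ T}

/-- the point with the coordinates `θ` and `x` -/
def pt {k : ℕ} (θ : ℂ) (x : Fin k → ℂ) : Option (Fin k) → ℂ := fun o => o.elim θ x

/-- The value of `∑_b P_b(θ, x) π_b` -/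
noncomputable def val {k : ℕ} {r : Fin k → ℕ} (a : ∀ j, Fin (r j) → ℤ) {W : ℕ} (θ : ℂ) (x ℓ : Fin k → ℂ)
    (P : Idx r W → MvPolynomial (Option (Fin k)) ℤ) : ℂ :=
  ∑ b, MvPolynomial.aeval (pt θ x) (P b) * prod a x ℓ b

/-- The inequality at the height `H`, for all determinations `ℓ_j` of `log x_j` with `|ℓ_j| ≤ H`: the absolute value of
`(1 / θ) ^ n + ∑_(i < n) S_i (1 / θ) ^ i` is at least `H ^ (-B)`, for all `n ≤ d` and all `S_i = ∑_b P_(i, b)(θ, x) π_b`. -/
def Good {k : ℕ} {r : Fin k → ℕ} (a : ∀ j, Fin (r j) → ℤ) (W d B : ℕ) (θ : ℂ) (x : Fin k → ℂ) (H : ℝ) : Prop :=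
  ∀ ℓ : Fin k → ℂ, (∀ j, Complex.exp (ℓ j) = x j) → (∀ j, ‖ℓ j‖ ≤ H) →
    ∀ n : ℕ, n ≤ d → ∀ P : Fin n → Idx r W → MvPolynomial (Option (Fin k)) ℤ, (∀ i b, (P i b).totalDegree ≤ d) →
      (∀ i b e, |(((P i b).coeff e : ℤ) : ℝ)| ≤ H) →
      1 ≤ H ^ B * ‖(1 / θ) ^ n + ∑ i, val a θ x ℓ (P i) * (1 / θ) ^ (i : ℕ)‖

theorem co_eq {r : ℕ} (a : Fin r → ℤ) (w : List (Option (Fin r))) (m : ℕ) :
    co a w m = coeff m (Pool.Agent.Y119.ML.LL a 0 w) := by
  induction w generalizing m with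
  | nil =>
    show _ = coeff m (1 : ℚ⟦X⟧)
    rw [coeff_one]
    rfl
  | cons o w ih =>
    rcases o with _ | i
    · show co a w m / m = coeff m (Pool.Agent.Y119.ML.In (Pool.Agent.Y119.ML.UU a 0 none * Pool.Agent.Y119.ML.LL a 0 w))
      rw [Pool.Agent.Q189.HL.UU_none, one_mul, Pool.Agent.Y119.ML.In, coeff_mk, ih]
    · show (∑ l ∈ Finset.range m, (a i : ℚ) ^ (m - 1 - l) * co a w l) / m =
        coeff m (Pool.Agent.Y119.ML.In (Pool.Agent.Y119.ML.UU a 0 (some i) * Pool.Agent.Y119.ML.LL a 0 w))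
      have h5 : Pool.Agent.Y119.ML.geo ((0 : ℕ) : ℤ) = 1 := Pool.Agent.Q189.HL.geo_zero
      have h6 : Pool.Agent.Y119.ML.geo (((0 : ℕ) : ℤ) + a i) = Pool.Agent.Y119.ML.geo (a i) := by simp
      have h7 : Pool.Agent.Y119.ML.UU a 0 (some i) = X * Pool.Agent.Y119.ML.geo (a i) := by
        show X * Pool.Agent.Y119.ML.geo ((0 : ℕ) : ℤ) * Pool.Agent.Y119.ML.geo (((0 : ℕ) : ℤ) + a i) = _
        rw [h5, h6, mul_one]
      rw [Pool.Agent.Y119.ML.In, coeff_mk, h7]
      congr 1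
      rcases m with _ | m
      · rw [mul_assoc, coeff_zero_X_mul]
        simp
      · rw [mul_assoc, coeff_succ_X_mul, mul_comm, coeff_mul, Finset.Nat.sum_antidiagonal_eq_sum_range_succ_mk]
        refine Finset.sum_congr rfl fun l hl => ?_
        rw [ih, Pool.Agent.Y119.ML.geo, coeff_mk, mul_comm]
        rfl

theorem L_eq {r : ℕ} (a : Fin r → ℤ) (w : List (Option (Fin r))) (y : ℂ) :
    L a w y = Pool.Agent.Y916.Al.evc y (Pool.Agent.Y119.ML.LL a 0 w) := by
  unfold L Pool.Agent.Y916.Al.evc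
  exact tsum_congr fun m => by rw [co_eq]

/-- the index of the product `1` -/
def b0 {k : ℕ} (r : Fin k → ℕ) (W : ℕ) : Idx r W := fun _ => (0, ⟨[], by simp⟩)

theorem L_nil {r : ℕ} (a : Fin r → ℤ) (y : ℂ) : L a [] y = 1 := by
  unfold L
  rw [tsum_eq_single 0]
  · simp [co]
  · intro m hm
    simp [co, hm]

theorem prod_b0 {k : ℕ} {r : Fin k → ℕ} (a : ∀ j, Fin (r j) → ℤ) (W : ℕ) (x ℓ : Fin k → ℂ) :
    prod a x ℓ (b0 r W) = 1 := by
  unfold prod b0
  refine Finset.prod_eq_one fun j _ => ?_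
  rw [L_nil]
  simp

/-- the linear form after multiplication by `θ ^ n` -/
noncomputable def frm {k : ℕ} {r : Fin k → ℕ} {W n : ℕ} (P : Fin n → Idx r W → MvPolynomial (Option (Fin k)) ℤ)
    (b : Idx r W) : MvPolynomial (Option (Fin k)) ℤ := by
  classical
  exact (if b = b0 r W then 1 else 0) + ∑ i : Fin n, MvPolynomial.X none ^ (n - (i : ℕ)) * P i b

theorem frm_val {k : ℕ} {r : Fin k → ℕ} (a : ∀ j, Fin (r j) → ℤ) {W n : ℕ} {θ : ℂ} (hθ : θ ≠ 0) (x ℓ : Fin k → ℂ)
    (P : Fin n → Idx r W → MvPolynomial (Option (Fin k)) ℤ) :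
    val a θ x ℓ (frm P) = θ ^ n * ((1 / θ) ^ n + ∑ i, val a θ x ℓ (P i) * (1 / θ) ^ (i : ℕ)) := by
  classical
  have h1 : ∀ i : Fin n, θ ^ n * (1 / θ) ^ (i : ℕ) = θ ^ (n - (i : ℕ)) := fun i => by
    have h3 : θ ^ n = θ ^ (n - (i : ℕ)) * θ ^ (i : ℕ) := by rw [← pow_add, Nat.sub_add_cancel i.2.le]
    rw [h3, mul_assoc, ← mul_pow, mul_one_div_cancel hθ, one_pow, mul_one]
  have h2 : θ ^ n * (1 / θ) ^ n = 1 := by rw [← mul_pow, mul_one_div_cancel hθ, one_pow]
  rw [mul_add, h2, Finset.mul_sum]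
  unfold val frm
  simp only [map_add, add_mul, Finset.sum_add_distrib]
  congr 1
  · rw [Finset.sum_eq_single (b0 r W)]
    · simp [prod_b0]
    · intro b _ hb
      simp [hb]
    · intro h
      exact absurd (Finset.mem_univ _) h
  · simp only [map_sum, Finset.sum_mul, Finset.mul_sum, map_mul, map_pow, MvPolynomial.aeval_X]
    rw [Finset.sum_comm]
    refine Finset.sum_congr rfl fun i _ => Finset.sum_congr rfl fun b _ => ?_
    show θ ^ (n - (i : ℕ)) * _ * _ = _
    rw [← h1 i]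
    ring

theorem frm_deg {k : ℕ} {r : Fin k → ℕ} {W n d : ℕ} (hn : n ≤ d) (P : Fin n → Idx r W → MvPolynomial (Option (Fin k)) ℤ)
    (hP : ∀ i b, (P i b).totalDegree ≤ d) (b : Idx r W) : (frm P b).totalDegree ≤ 2 * d := by
  classical
  unfold frm
  refine (MvPolynomial.totalDegree_add _ _).trans (max_le ?_ ?_)
  · split_ifs <;> simp
  · refine MvPolynomial.totalDegree_finsetSum_le fun i _ => (MvPolynomial.totalDegree_mul _ _).trans ?_
    refine (add_le_add (MvPolynomial.totalDegree_pow _ _) (hP i b)).trans ?_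
    rw [MvPolynomial.totalDegree_X, mul_one]
    omega

theorem frm_coeff {k : ℕ} {r : Fin k → ℕ} {W n d : ℕ} (hn : n ≤ d) (P : Fin n → Idx r W → MvPolynomial (Option (Fin k)) ℤ)
    {H : ℝ} (hH : 1 ≤ H) (hPH : ∀ i b e, |(((P i b).coeff e : ℤ) : ℝ)| ≤ H) (b : Idx r W) (e : Option (Fin k) →₀ ℕ) :
    |(((frm P b).coeff e : ℤ) : ℝ)| ≤ ((d : ℝ) + 1) * H := by
  classical
  unfold frm
  rw [MvPolynomial.coeff_add, MvPolynomial.coeff_sum]
  push_cast
  refine (abs_add_le _ _).trans ?_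
  have h1 : |(((if b = b0 r W then (1 : MvPolynomial (Option (Fin k)) ℤ) else 0).coeff e : ℤ) : ℝ)| ≤ H := by
    split_ifs
    · rw [MvPolynomial.coeff_one]
      split_ifs
      · simpa using hH
      · simpa using (by linarith : (0 : ℝ) ≤ H)
    · simpa using (by linarith : (0 : ℝ) ≤ H)
  have h2 : |∑ i : Fin n, (((MvPolynomial.X none ^ (n - (i : ℕ)) * P i b).coeff e : ℤ) : ℝ)| ≤ (d : ℝ) * H := by
    refine (Finset.abs_sum_le_sum_abs _ _).trans ?_
    calc _ ≤ ∑ _i : Fin n, H := Finset.sum_le_sum fun i _ => by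
          rw [MvPolynomial.X_pow_eq_monomial, MvPolynomial.coeff_monomial_mul']
          split_ifs
          · rw [one_mul]
            exact hPH i b _
          · simpa using (by linarith : (0 : ℝ) ≤ H)
      _ = (n : ℝ) * H := by rw [Finset.sum_const, nsmul_eq_mul, Finset.card_univ, Fintype.card_fin]
      _ ≤ _ := mul_le_mul_of_nonneg_right (by exact_mod_cast hn) (by linarith)
  calc _ ≤ H + (d : ℝ) * H := add_le_add h1 h2
    _ = _ := by ring

theorem frm_b0 {k : ℕ} {r : Fin k → ℕ} {W n : ℕ} (P : Fin n → Idx r W → MvPolynomial (Option (Fin k)) ℤ) (x : Fin k → ℂ) :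
    MvPolynomial.aeval (pt 0 x) (frm P (b0 r W)) = 1 := by
  classical
  unfold frm
  simp only [map_add, map_sum, map_mul, map_pow, MvPolynomial.aeval_X, if_true, map_one]
  rw [Finset.sum_eq_zero, add_zero]
  intro i _
  show (0 : ℂ) ^ (n - (i : ℕ)) * _ = 0
  rw [zero_pow (by omega), zero_mul]

/-- Let `a_1, …, a_k` be finite families of distinct nonzero integers, and let `θ` be transcendental and algebraic over
`ℤ[π]`. For all `W`, `d`, `m ≥ 1` there are `B`, `C` and `c > 0` such that for all `T ≥ 1`: (1) for every sufficiently large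
`H₁`, all but at most `C T ^ (-c) |Ints m T| ^ k` of the tuples `x ∈ (Ints m T)^k` are good for all `H` with
`H₁ ≤ H ≤ H₁ ^ exp (T ^ c)`; (2) all but at most `C T ^ (-c) |Ints m T| ^ k` of the tuples have the property that there are
arbitrarily large `N` such that, for all but at most `T ^ (-c) N` of the `s < N`, `x` is good for all `H` with
`2 ^ (2 ^ s) ≤ H ≤ 2 ^ (2 ^ (s + 1))`. -/
theorem result (k : ℕ) (r : Fin k → ℕ) (a : ∀ j, Fin (r j) → ℤ) (ha : ∀ j, Function.Injective (a j))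
    (h0 : ∀ j i, a j i ≠ 0) (θ : ℂ) (hθ : Transcendental ℤ θ)
    (he : IsAlgebraic (Algebra.adjoin ℤ ({(Real.pi : ℂ)} : Set ℂ)) θ) (W d m : ℕ) (hm : 1 ≤ m) :
    ∃ (B : ℕ) (C c : ℝ), 0 < c ∧ ∀ T : ℕ, 1 ≤ T →
    (∃ H₀ : ℝ, ∀ H₁ : ℝ, H₀ ≤ H₁ →
      (({x : Fin k → ℂ | (∀ j, x j ∈ Ints m T) ∧ ¬ ∀ H : ℝ, H₁ ≤ H → H ≤ H₁ ^ Real.exp ((T : ℝ) ^ c) →
        Good a W d B θ x H}.ncard : ℕ) : ℝ) ≤ C * (T : ℝ) ^ (-c) * (((Ints m T).ncard : ℕ) : ℝ) ^ k) ∧
    (({x : Fin k → ℂ | (∀ j, x j ∈ Ints m T) ∧ ¬ ∀ N₀ : ℕ, ∃ N, N₀ ≤ N ∧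
      (({s : ℕ | s < N ∧ ¬ ∀ H : ℝ, 2 ^ (2 ^ s) ≤ H → H ≤ 2 ^ (2 ^ (s + 1)) → Good a W d B θ x H}.ncard : ℕ) : ℝ) ≤
        (T : ℝ) ^ (-c) * N}.ncard : ℕ) : ℝ) ≤ C * (T : ℝ) ^ (-c) * (((Ints m T).ncard : ℕ) : ℝ) ^ k := by
  have hm' := Pool.Agent.TH456.TM.measT_of_isAlgebraic Pool.Agent.TH456.TM.measT_pi θ he hθ
  have hθ0 : θ ≠ 0 := by
    rintro rfl
    exact hθ isAlgebraic_zero
  refine Pool.Agent.Q189.EP.torT a ha h0 W m (2 * d) 2 0 hm (by norm_num) hm' (fun B x H => Good a W d B θ x H)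
    (fun B₀ => ⟨2 * B₀ + 1, fun T hT => ⟨max ((d : ℝ) + 1) (max 1 ‖θ‖ ^ d), fun x H hH _ _ hg => ?_⟩⟩) ?_
  · have hH1 : (d : ℝ) + 1 ≤ H := (le_max_left _ _).trans hH
    have hH2 : max 1 ‖θ‖ ^ d ≤ H := (le_max_right _ _).trans hH
    have hH3 : 1 ≤ H := le_trans (by
      have : (0 : ℝ) ≤ d := Nat.cast_nonneg d
      linarith) hH1
    have hH4 : H ≤ H ^ 2 := le_self_pow₀ hH3 (by norm_num)
    intro ℓ hℓ hℓH n hn P hP hPH
    have h1 := hg ℓ hℓ (fun j => (hℓH j).trans hH4) (frm P) (frm_deg hn P hP) (fun b e =>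
      (frm_coeff hn P hH3 hPH b e).trans (by
        calc _ ≤ H * H := mul_le_mul_of_nonneg_right hH1 (by linarith)
          _ = H ^ 2 := by ring)) (b0 r W) ⟨0, by
            show MvPolynomial.aeval (pt 0 x) _ ≠ 0
            rw [frm_b0]
            exact one_ne_zero⟩
    have h2 : ∑ b, MvPolynomial.aeval (Pool.Agent.Q189.HC.op θ x) (frm P b) * ∏ j, (ℓ j ^ ((b j).1 : ℕ) *
        Pool.Agent.Y916.Al.evc (1 / x j) (Pool.Agent.Y119.ML.LL (a j) 0 (b j).2.1)) = val a θ x ℓ (frm P) := by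
      unfold val prod
      simp only [L_eq]
      rfl
    rw [h2, frm_val a hθ0, norm_mul, norm_pow] at h1
    set S : ℂ := (1 / θ) ^ n + ∑ i, val a θ x ℓ (P i) * (1 / θ) ^ (i : ℕ) with hS
    have h3 : ‖θ‖ ^ n ≤ H := by
      calc ‖θ‖ ^ n ≤ max 1 ‖θ‖ ^ n := pow_le_pow_left₀ (norm_nonneg _) (le_max_right _ _) _
        _ ≤ max 1 ‖θ‖ ^ d := pow_le_pow_right₀ (le_max_left _ _) hn
        _ ≤ H := hH2
    calc (1 : ℝ) ≤ (H ^ 2) ^ B₀ * (‖θ‖ ^ n * ‖S‖) := h1
      _ ≤ (H ^ 2) ^ B₀ * (H * ‖S‖) :=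
        mul_le_mul_of_nonneg_left (mul_le_mul_of_nonneg_right h3 (norm_nonneg _)) (by positivity)
      _ = H ^ (2 * B₀ + 1) * ‖S‖ := by rw [← pow_mul, pow_succ]; ring
  · intro B x H H' h1 h2 h3 hg ℓ hℓ hℓH n hn P hP hPH
    refine (hg ℓ hℓ (fun j => (hℓH j).trans h2) n hn P hP (fun i b e => (hPH i b e).trans h2)).trans ?_
    refine mul_le_mul_of_nonneg_right ?_ (norm_nonneg _)
    rw [pow_mul]
    exact pow_le_pow_left₀ (by linarith) h3 _

end Pool.Agent.Results.MP_725b61_nt.InverseOfPiNearIntegral
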