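import Pool.Agent.Q138.PS.YH
import Pool.Agent.Results.MP_725b61_nt.NotIntegralOverFibres

/-!
# `e` and `1 / π` are not integral over the periods of the fibres at integers close to `c n^j α^n`

Let `X → S` be a family of varieties over an open part of the line over `ℚ`, near the rational point `x = 0` (where it may
degenerate). The periods of the fibre at `x = 1 / t` are polynomials in `log t`, in the values at `1 / t` of G-functions with
rational coefficients and in constants. For a number `β` and constants `ξ_1, …, ξ_g` we say that `t` is exceptional if `β` is a root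
of a monic polynomial of degree `m` whose coefficients are expressions of degree at most `d` in the `ξ`, `log t` and the values of
the G-functions at `1 / t`.

For almost every real number `α > 1` the following holds for countably many families and countably many constants at once: if `β`
is not integral over `ℚ[ξ]`, then for all `d`, `m` there is `κ > 0` such that for all algebraic numbers `c > 0`, all integers `j`,
all real `D` and all large `n`, NO integer `t ≥ 1` with `|t - c n^j α^n| ≤ D (c n^j α^n)^κ` is exceptional. This holds for `β = e`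
with algebraic numbers as constants and for `β = 1 / π` with `π` and algebraic numbers as constants.
-/

set_option autoImplicit false

namespace Pool.Agent.Results.MP_725b61_nt.NotIntegralNearPowers

open Filter MeasureTheory PowerSeries Pool.Agent.Q138.PS
open Pool.Agent.Results.MP_725b61_nt.NotIntegralOverFibres (GFamily NotIntegral IsRoot)

/-- the numbers `log t` (the index is `none`) and `h_l(1 / t)` (the index is `some l`) -/
noncomputable def vals {r : ℕ} (h : Fin r → PowerSeries ℚ) (t : ℕ) : Option (Fin r) → ℂ := fun p =>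
  p.elim ((Real.log t : ℝ) : ℂ) fun l => ((∑' m : ℕ, ((coeff m (h l) : ℚ) : ℝ) * (1 / (t : ℝ)) ^ m : ℝ) : ℂ)

/-- `β` is a root of a monic polynomial of degree `m` whose coefficients are the values of polynomials over `ℚ` of degree at
most `d` at the numbers `ξ_1, …, ξ_g`, `log t`, `h_l(1 / t)` -/
def Root {r g : ℕ} (d m : ℕ) (h : Fin r → PowerSeries ℚ) (ξ : Fin g → ℂ) (β : ℂ) (t : ℕ) : Prop :=
  ∃ P : Fin m → MvPolynomial (Fin g ⊕ Option (Fin r)) ℚ, (∀ j, (P j).totalDegree ≤ d) ∧
    β ^ m + ∑ j, MvPolynomial.aeval (Sum.elim ξ (vals h t)) (P j) * β ^ (j : ℕ) = 0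

theorem toRoot {r g : ℕ} {d m : ℕ} {h : Fin r → PowerSeries ℚ} {ξ : Fin g → ℂ} {β : ℂ} {t : ℕ} (hr : Root d m h ξ β t) :
    IsRoot (k := 1) (ρ := fun _ => r) d m (fun _ => h) ξ β (fun _ => t) := by
  obtain ⟨P, h1, h2⟩ := hr
  refine ⟨fun j => MvPolynomial.rename (Sum.map id fun o => ⟨0, o⟩) (P j), fun j =>
    (MvPolynomial.totalDegree_rename_le _ _).trans (h1 j), ?_⟩
  rw [← h2]
  congr 1
  refine Finset.sum_congr rfl fun j _ => ?_
  rw [MvPolynomial.aeval_rename]
  congr 3
  funext p
  rcases p with p | p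
  · rfl
  · rcases p with _ | p <;> rfl

/-- **Theorem.** Let `h_i`, `i ∈ ι`, be countably many families of G-functions over `ℚ` (with the conditions of Siegel and
Galochkin, regular singular with rational exponents at `0`), and let `S` be a countable set of complex numbers. For almost every
real number `α > 1` the following holds for all `i ∈ ι` and all natural numbers `d`, `m`, `g`, `n`.
(1) If `ξ_1, …, ξ_g` and `β` are in `S`, and `β` is not integral over the ring `ℚ[ξ_1, …, ξ_g]`, then along the powers of `α` it is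
rare that `β` is a root of a monic polynomial of degree `m` whose coefficients are polynomials over `ℚ` of degree at most `d` in
the numbers `ξ_1, …, ξ_g`, `log t`, `h_{i,l}(1 / t)`.
(2) This holds for `β = e` and algebraic numbers `ω_1, …, ω_n` in the place of the `ξ`, and for `β = 1 / π` and `π, ω_1, …, ω_n` in
the place of the `ξ`. -/
theorem result {ι : Type} [Countable ι] (r : ι → ℕ) (T : ι → Polynomial ℤ) (A : ∀ i, Fin (r i) → Fin (r i) → Polynomial ℤ)
    (h : ∀ i, Fin (r i) → PowerSeries ℚ) (hG : ∀ i, GFamily (T i) (A i) (h i)) (S : Set ℂ) (hS : S.Countable) :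
    ∀ᵐ α : ℝ, 1 < α → ∀ (i : ι) (d m : ℕ),
      (∀ (g : ℕ) (ξ : Fin g → ℂ) (β : ℂ), (∀ l, ξ l ∈ S) → β ∈ S → NotIntegral ξ β → RarePow α 1 (Root d m (h i) ξ β)) ∧
      (∀ (n : ℕ) (ω : Fin n → ℂ), (∀ l, IsAlgebraic ℚ (ω l)) → RarePow α 1 (Root d m (h i) ω (Complex.exp 1)) ∧
        RarePow α 1 (Root d m (h i) (Fin.cons ((Real.pi : ℝ) : ℂ) ω : Fin (n + 1) → ℂ) (1 / ((Real.pi : ℝ) : ℂ)))) := by
  have hS' : (S ∪ ({Complex.exp 1, ((Real.pi : ℝ) : ℂ), 1 / ((Real.pi : ℝ) : ℂ)} ∪ {x : ℂ | IsAlgebraic ℚ x})).Countable :=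
    hS.union ((Set.toFinite _).countable.union (Algebraic.countable ℚ ℂ))
  set S' := S ∪ ({Complex.exp 1, ((Real.pi : ℝ) : ℂ), 1 / ((Real.pi : ℝ) : ℂ)} ∪ {x : ℂ | IsAlgebraic ℚ x}) with hS'def
  have hcount : ∀ g, Countable {ξ : Fin g → ℂ // ∀ i, ξ i ∈ S'} := tuples_countable hS'
  have hcS : Countable S' := hS'.to_subtype
  have hae := rarePow_ae (ι := ι × ℕ × ℕ × (Σ g : ℕ, {ξ : Fin g → ℂ // ∀ i, ξ i ∈ S'}) × S')
    (fun p => Root p.2.1 p.2.2.1 (h p.1) p.2.2.2.1.2.1 p.2.2.2.2.1)
  filter_upwards [hae] with α hg hα i d m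
  have key : ∀ (g : ℕ) (ξ : Fin g → ℂ) (β : ℂ), (∀ l, ξ l ∈ S') → β ∈ S' → NotIntegral ξ β →
      RarePow α 1 (Root d m (h i) ξ β) := by
    intro g ξ β hξ hβ hni
    refine hg hα (i, d, m, ⟨g, ξ, hξ⟩, ⟨β, hβ⟩) 1 ?_
    obtain ⟨⟨c, C, hc, h1⟩, -⟩ := NotIntegralOverFibres.result 1 g d m (fun _ => r i) (fun _ => T i) (fun _ => A i)
      (fun _ => h i) (fun _ => hG i)
    exact few_of_boxes hc (fun t ht => toRoot ht) (h1 ξ β hni)
  refine ⟨fun g ξ β hξ hβ => key g ξ β (fun l => Or.inl (hξ l)) (Or.inl hβ), fun n ω hω => ?_⟩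
  obtain ⟨-, h2⟩ := NotIntegralOverFibres.result 1 0 d m (fun _ => r i) (fun _ => T i) (fun _ => A i)
      (fun _ => h i) (fun _ => hG i)
  obtain ⟨h3, h4⟩ := h2 n ω hω
  refine ⟨key n ω _ (fun l => Or.inr (Or.inr (hω l))) (Or.inr (Or.inl (by simp))) h3,
    key (n + 1) _ _ (fun l => ?_) (Or.inr (Or.inl (by simp))) h4⟩
  refine Fin.cases ?_ (fun l => ?_) l
  · exact Or.inr (Or.inl (by simp))
  · exact Or.inr (Or.inr (by simpa using hω l))

end Pool.Agent.Results.MP_725b61_nt.NotIntegralNearPowers
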